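import Mathlib
import Pool.Agent.H594Z.LFGeom

set_option autoImplicit false

open MeasureTheory Complex WithLp
open scoped ENNReal RealInnerProductSpace ContDiff

namespace Pool.Agent.Results.MP_a02827_an.Counterexample

/-- `Ω` (only its values on the unit sphere are used) is `k`-antisymmetric. -/
def Antisym {d : ℕ} (Ω : EuclideanSpace ℝ (Fin d) → Submodule ℂ (Fin d → ℂ)) (k : ℕ) : Prop :=
  ∀ L : Submodule ℝ (EuclideanSpace ℝ (Fin d)), Module.finrank ℝ L = k + 1 →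
    ⨅ ξ ∈ {ξ | ‖ξ‖ = 1 ∧ ξ ∈ L}, Ω ξ = ⊥

/-- The index `a(Ω)`. -/
noncomputable def aIdx {d : ℕ} (Ω : EuclideanSpace ℝ (Fin d) → Submodule ℂ (Fin d → ℂ)) : ℕ :=
  sInf {k | k < d ∧ Antisym Ω k}

/-- Lower Hausdorff dimension of a vector measure. -/
noncomputable def dimM {d : ℕ} (μ : VectorMeasure (EuclideanSpace ℝ (Fin d)) (Fin d → ℂ)) : ℝ≥0∞ :=
  ⨅ (F : Set (EuclideanSpace ℝ (Fin d))) (_ : MeasurableSet F) (_ : μ F ≠ 0), dimH F

open Pool.Agent.H594Z.LF in
/-- A smooth non-constant line field `Ω = ℂ w` on the sphere and a vector measure `μ = f ρ` of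
bounded variation with Fourier transform in `Ω` and `dim μ < d - a(Ω)`. -/
theorem result : ∃ d : ℕ, 2 ≤ d ∧ ∃ w : EuclideanSpace ℝ (Fin d) → (Fin d → ℂ),
    ContDiff ℝ ∞ w ∧ (∀ ξ, w ξ ≠ 0) ∧
    (∃ ξ ξ', ‖ξ‖ = 1 ∧ ‖ξ'‖ = 1 ∧ (ℂ ∙ w ξ) ≠ (ℂ ∙ w ξ')) ∧
    ∃ ρ : Measure (EuclideanSpace ℝ (Fin d)), IsFiniteMeasure ρ ∧
    ∃ f : EuclideanSpace ℝ (Fin d) → (Fin d → ℂ), Integrable f ρ ∧
      (∀ ξ : EuclideanSpace ℝ (Fin d), ξ ≠ 0 →
        ∫ x, exp (-(⟪x, ξ⟫ : ℝ) * I) • f x ∂ρ ∈ (ℂ ∙ w (‖ξ‖⁻¹ • ξ))) ∧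
      dimM (ρ.withDensityᵥ f) < ((d - aIdx (fun ξ => ℂ ∙ w ξ) : ℕ) : ℝ≥0∞) := by
  obtain ⟨s, hs⟩ : ∃ s : ℕ, 256 * qq ^ (s + 2) < 1 := by
    obtain ⟨s, hs⟩ := exists_pow_lt_of_lt_one (by norm_num : (0 : ℝ) < 1 / 256) qq_lt
    have := pow_le_pow_of_le_one qq_pos.le qq_lt.le (Nat.le_add_right s 2)
    exact ⟨s, by linarith⟩
  obtain ⟨η, hη, hcos, hsp⟩ := exists_eta
  obtain ⟨g, hgs, hgc, hgr⟩ := (UU_open (s + 2)).exists_contDiff_support_eq (n := ⊤)
  have hg0 : ∀ ξ, 0 ≤ g ξ := fun ξ => (hgr (Set.mem_range_self ξ)).1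
  let w : EuclideanSpace ℝ (Fin (s + 2)) → (Fin (s + 2) → ℂ) := fun ξ l =>
    if l = 0 then 1 else (g ξ : ℂ) * (ξ l + ξ 0 * I)
  have hw0 : ∀ ξ, w ξ 0 = 1 := fun ξ => by simp [w]
  have hkey : ∀ ξ, ‖ξ‖ = 1 → ξ ∈ UU (s + 2) → ∀ z, z ∈ (ℂ ∙ w ξ) → z ∈ (ℂ ∙ w (-ξ)) → z = 0 := by
    intro ξ h1 hU z hz hz'
    obtain ⟨a, rfl⟩ := Submodule.mem_span_singleton.mp hz
    obtain ⟨b, hb⟩ := Submodule.mem_span_singleton.mp hz'
    have hab : b = a := by simpa [hw0] using congrFun hb 0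
    subst hab
    by_contra hne
    have hb0 : b ≠ 0 := by rintro rfl; simp at hne
    have hgp : 0 < g ξ := lt_of_le_of_ne (hg0 ξ) (by
      rw [← hgs] at hU; exact Ne.symm hU)
    have hsum : ((g ξ : ℂ) + g (-ξ)) ≠ 0 := by
      have : 0 < g ξ + g (-ξ) := by linarith [hg0 (-ξ)]
      exact_mod_cast this.ne'
    have hl : ∀ l, l ≠ 0 → ξ l = 0 ∧ ξ 0 = 0 := by
      intro l hl
      have h2 := congrFun hb l
      simp only [w, Pi.smul_apply, if_neg hl, smul_eq_mul, PiLp.neg_apply] at h2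
      have h3 : b * ((g ξ : ℂ) + g (-ξ)) * (ξ l + ξ 0 * I) = 0 := by
        push_cast at h2; linear_combination -h2
      have h4 := (mul_eq_zero.mp h3).resolve_left (mul_ne_zero hb0 hsum)
      exact ⟨by simpa using congrArg re h4, by simpa using congrArg im h4⟩
    have : ξ = 0 := by
      ext l
      by_cases h : l = 0
      · rw [h]; exact (hl 1 (by simp)).2
      · exact (hl l h).1
    rw [this] at h1; simp at h1
  have hanti : Antisym (fun ξ => ℂ ∙ w ξ) 1 := by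
    intro L hL
    obtain ⟨ξ, h1, h2, h3⟩ := plane_meets L hL
    rw [eq_bot_iff]
    intro z hz
    simp only [Submodule.mem_iInf] at hz
    exact hkey ξ h1 h3 z (hz ξ ⟨h1, h2⟩) (hz (-ξ) ⟨by simpa using h1, L.neg_mem h2⟩)
  let ρ₀ := Measure.pi (fun _ : Fin (s + 2) => η)
  let ρ : Measure (EuclideanSpace ℝ (Fin (s + 2))) := ρ₀.map (toLp 2)
  have hρ : IsProbabilityMeasure ρ := Measure.isProbabilityMeasure_map (by fun_prop)
  let v : Fin (s + 2) → ℂ := Pi.single 0 1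
  let c : EuclideanSpace ℝ (Fin (s + 2)) := EuclideanSpace.single 0 16
  let f : EuclideanSpace ℝ (Fin (s + 2)) → (Fin (s + 2) → ℂ) := fun x =>
    exp ((⟪x, c⟫ : ℝ) * I) • v
  have hfn : ∀ x, ‖f x‖ = 1 := by
    intro x; simp only [f, v, norm_smul, norm_exp_ofReal_mul_I, Pi.norm_single]; simp
  have hfi : Integrable f ρ :=
    Integrable.of_bound (Continuous.aestronglyMeasurable (by fun_prop)) 1
      (.of_forall fun x => (hfn x).le)
  refine ⟨s + 2, by omega, w, ?_, fun ξ h => ?_, ?_, ρ, inferInstance, f, hfi, fun ξ hξ => ?_, ?_⟩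
  · refine contDiff_pi.mpr fun l => ?_
    simp only [w]
    split_ifs
    · exact contDiff_const
    · have hc : ∀ i, ContDiff ℝ ∞ fun ξ : EuclideanSpace ℝ (Fin (s + 2)) => ((ξ i : ℝ) : ℂ) :=
        fun i => ofRealCLM.contDiff.comp (EuclideanSpace.proj (𝕜 := ℝ) i).contDiff
      exact (ofRealCLM.contDiff.comp hgc).mul ((hc l).add ((hc 0).mul contDiff_const))
  · have := hw0 ξ; rw [h] at this; simp at this
  · obtain ⟨L, hL⟩ : ∃ L : Submodule ℝ (EuclideanSpace ℝ (Fin (s + 2))),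
        Module.finrank ℝ L = 2 := by
      obtain ⟨b, hb⟩ := exists_linearIndependent_of_le_finrank (R := ℝ)
        (M := EuclideanSpace ℝ (Fin (s + 2))) (n := 2) (by simp)
      exact ⟨_, by simpa using finrank_span_eq_card hb⟩
    obtain ⟨ξ, h1, -, h3⟩ := plane_meets L hL
    refine ⟨ξ, -ξ, h1, by simpa using h1, fun h => ?_⟩
    have := hkey ξ h1 h3 (w ξ) (Submodule.mem_span_singleton_self _)
      (h ▸ Submodule.mem_span_singleton_self _)
    have h0 := hw0 ξ; rw [this] at h0; simp at h0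
  · have h1 : ∫ x, exp (-(⟪x, ξ⟫ : ℝ) * I) • f x ∂ρ = charFun ρ (c - ξ) • v := by
      rw [charFun_apply, ← integral_smul_const]
      refine integral_congr_ae (.of_forall fun x => ?_)
      simp only [f, smul_smul, ← Complex.exp_add, inner_sub_right]
      congr 2; push_cast; ring
    rw [h1]
    by_cases h2 : charFun ρ (c - ξ) = 0
    · rw [h2, zero_smul]; exact Submodule.zero_mem _
    · have h3 : ξ ∉ UU (s + 2) := by
        rw [charFun_pi, ← ne_eq, Finset.prod_ne_zero_iff] at h2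
        refine spec_not_UU ξ fun i J => ?_
        have := hsp _ (h2 i (Finset.mem_univ i)) J
        simpa [c, Pi.single_apply] using this
      have hn : 0 < ‖ξ‖ := norm_pos_iff.mpr hξ
      have h4 : g (‖ξ‖⁻¹ • ξ) = 0 := by
        by_contra h4
        have h5 : ‖ξ‖⁻¹ • ξ ∈ UU (s + 2) := by rw [← hgs]; exact h4
        have := UU_smul hn h5
        rw [smul_smul, mul_inv_cancel₀ hn.ne', one_smul] at this
        exact h3 this
      have h6 : w (‖ξ‖⁻¹ • ξ) = v := by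
        ext l; simp only [w, h4, v, Pi.single_apply]; split_ifs <;> simp
      rw [h6]
      exact Submodule.smul_mem _ _ (Submodule.mem_span_singleton_self _)
  · have ha : aIdx (fun ξ => ℂ ∙ w ξ) ≤ 1 := Nat.sInf_le ⟨by omega, hanti⟩
    let F : Set (EuclideanSpace ℝ (Fin (s + 2))) := ofLp ⁻¹' FF (s + 2)
    have hFm : MeasurableSet F := (FF_meas _).preimage (by fun_prop)
    have hFd : dimH F ≤ s :=
      ((PiLp.antilipschitzWith_ofLp 2 _).dimH_preimage_le _).trans (dim_FF s hs)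
    have hFp : ρ F ≠ 0 := by
      rw [Measure.map_apply (by fun_prop) hFm]
      exact FF_pos (s + 2) (by omega) η hcos
    obtain ⟨A, hA, hAF⟩ : ∃ A, MeasurableSet A ∧ ∫ x in A, f x ∂(ρ.restrict F) ≠ 0 := by
      by_contra hcon
      push Not at hcon
      have h1 := (hfi.restrict (s := F)).ae_eq_zero_of_forall_setIntegral_eq_zero
        fun A hA _ => hcon A hA
      have h2 : ∀ᵐ x ∂(ρ.restrict F), False := by
        filter_upwards [h1] with x hx
        have := hfn x; rw [hx] at this; simp at this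
      rw [Filter.eventually_false_iff_eq_bot, ae_eq_bot, Measure.restrict_eq_zero] at h2
      exact hFp h2
    rw [Measure.restrict_restrict hA, ← withDensityᵥ_apply hfi (hA.inter hFm)] at hAF
    have h3 : dimM (ρ.withDensityᵥ f) ≤ s := by
      unfold dimM
      refine iInf_le_of_le (A ∩ F) (iInf_le_of_le (hA.inter hFm) (iInf_le_of_le hAF ?_))
      exact (dimH_mono Set.inter_subset_right).trans hFd
    refine h3.trans_lt ?_
    exact_mod_cast (by omega : s < s + 2 - aIdx (fun ξ => ℂ ∙ w ξ))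

end Pool.Agent.Results.MP_a02827_an.Counterexample
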